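import Pool.Agent.H500.HC.Stm
import Pool.Graph.R_pool_sql_team_seeded_3997aac3.Q92.AR.All
import Pool.Graph.R_pool_sql_team_seeded_2aa45f1a.Q92.FP.Main
import Pool.Graph.R_seed8.Y772.HG.Tot
import Pool.Graph.R_seed8.Y773.HG.Ent

/-!
# Project HC (helper500), part B4: Dirichlet's theorem for ray classes (helper955)
-/

set_option autoImplicit false
set_option linter.unusedSectionVars false
set_option linter.deprecated false

namespace Pool.Agent.H955.HC.Dir

open NumberField IsDedekindDomain Pool.Agent.Q5.BR Pool.Agent.Q92.AR Pool.Agent.H921R2.TatePole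
  Filter Topology
open Pool.Agent.Q128.AR (cc cc_apply cc_eq_zero lt pw_eq inv_pw_eq geom_summable lt_summable prj
  prj_of_mem ray_mem_Pr val_prin one_lt_nm finite_dvd bt bt_nonneg bt_summable above_card_le)
open Pool.Agent.Q84.AR (psi psi_apply dv dv_span dv_prime cop_v)
open Pool.Agent.Y773 (LI TPos)

/-! ### Analysis -/

/-- a continuous logarithm of a constant is constant -/
lemma exp_const {g : ℝ → ℂ} {a b : ℝ} {w : ℂ} (hg : ContinuousOn g (Set.Ioo a b))
    (hw : ∀ x ∈ Set.Ioo a b, Complex.exp (g x) = w) :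
    ∀ x ∈ Set.Ioo a b, ∀ y ∈ Set.Ioo a b, g x = g y := by
  have key : ∀ x ∈ Set.Ioo a b, ∀ y ∈ Set.Ioo a b, ¬ (g x).im < (g y).im := by
    intro x hx y hy hlt
    have h1 : Complex.exp (g y) = Complex.exp (g x) := by rw [hw x hx, hw y hy]
    rw [Complex.exp_eq_exp_iff_exists_int] at h1
    obtain ⟨n, hn⟩ := h1
    have h2 : (g y).im = (g x).im + n * (2 * Real.pi) := by
      have := congrArg Complex.im hn
      rw [Complex.add_im, Complex.mul_im] at this
      simpa using this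
    have hpi := Real.pi_pos
    have hn1 : (1 : ℝ) ≤ n := by
      have h3 : (0 : ℝ) < n := by
        by_contra hcon
        rw [not_lt] at hcon
        nlinarith
      have h4 : (0 : ℤ) < n := by exact_mod_cast h3
      exact_mod_cast h4
    have hsub : Set.uIcc x y ⊆ Set.Ioo a b := (Set.ordConnected_Ioo).uIcc_subset hx hy
    have h3 : (g x).im + Real.pi ∈ Set.uIcc (g x).im (g y).im := by
      rw [Set.uIcc_of_le hlt.le]
      constructor
      · linarith
      · nlinarith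
    have hci : ContinuousOn (fun t => (g t).im) (Set.uIcc x y) :=
      Complex.continuous_im.comp_continuousOn (hg.mono hsub)
    obtain ⟨z, hz, hz2⟩ := intermediate_value_uIcc hci h3
    have h4 : Complex.exp (g z) = Complex.exp (g x) := by rw [hw x hx, hw z (hsub hz)]
    rw [Complex.exp_eq_exp_iff_exists_int] at h4
    obtain ⟨m, hm⟩ := h4
    have h5 : (g z).im = (g x).im + m * (2 * Real.pi) := by
      have := congrArg Complex.im hm
      rw [Complex.add_im, Complex.mul_im] at this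
      simpa using this
    have h6 : (g z).im = (g x).im + Real.pi := hz2
    have h7 : (2 * m : ℝ) = 1 := by
      have h8 : (m : ℝ) * (2 * Real.pi) = Real.pi := by linarith
      have h9 : (2 * (m : ℝ) - 1) * Real.pi = 0 := by linarith
      rcases mul_eq_zero.1 h9 with h | h
      · linarith
      · exact absurd h hpi.ne'
    have h8 : (2 * m : ℤ) = 1 := by exact_mod_cast h7
    omega
  intro x hx y hy
  apply Complex.ext
  · have h1 : Real.exp (g x).re = Real.exp (g y).re := by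
      rw [← Complex.norm_exp, ← Complex.norm_exp, hw x hx, hw y hy]
    exact Real.exp_injective h1
  · exact le_antisymm (not_lt.1 (key y hy x hx)) (not_lt.1 (key x hx y hy))

/-- the logarithm is bounded if the function has a limit different from zero -/
lemma bdd_of_exp {l : ℝ → ℂ} {F : ℂ → ℂ} (hF : ContinuousAt F 1) (hF1 : F 1 ≠ 0)
    (hl : ContinuousOn l (Set.Ioi 1)) (h : ∀ x : ℝ, 1 < x → Complex.exp (l x) = F x) :
    ∃ C : ℝ, ∀ᶠ x : ℝ in 𝓝[>] 1, ‖l x‖ ≤ C := by
  have h1 : Tendsto (fun x : ℝ => F (x : ℂ) / F 1) (𝓝[>] 1) (𝓝 1) := by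
    have h2 : Tendsto (fun x : ℝ => (x : ℂ)) (𝓝[>] 1) (𝓝 1) := by
      have : Tendsto (fun x : ℝ => (x : ℂ)) (𝓝 1) (𝓝 ((1 : ℝ) : ℂ)) :=
        Complex.continuous_ofReal.tendsto 1
      rw [Complex.ofReal_one] at this
      exact this.mono_left nhdsWithin_le_nhds
    have h3 : Tendsto (fun x : ℝ => F (x : ℂ) / F 1) (𝓝[>] 1) (𝓝 (F 1 / F 1)) :=
      (hF.tendsto.comp h2).div_const _
    rwa [div_self hF1] at h3
  have h2 : ∀ᶠ x : ℝ in 𝓝[>] 1, ‖F (x : ℂ) / F 1 - 1‖ < 1 / 2 := by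
    have h3 := (tendsto_iff_norm_sub_tendsto_zero.1 h1).eventually
      (gt_mem_nhds (show (0 : ℝ) < 1 / 2 by norm_num))
    exact h3
  rw [eventually_nhdsWithin_iff, Metric.eventually_nhds_iff] at h2
  obtain ⟨δ, hδ, h3⟩ := h2
  have h4 : ∀ x ∈ Set.Ioo (1 : ℝ) (1 + δ), ‖F (x : ℂ) / F 1 - 1‖ < 1 / 2 := by
    intro x hx
    refine h3 ?_ hx.1
    rw [Real.dist_eq, abs_of_pos (by linarith [hx.1])]
    linarith [hx.2]
  have hG : ContinuousOn (fun x : ℝ => F (x : ℂ) / F 1) (Set.Ioo 1 (1 + δ)) := by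
    have h5 : ContinuousOn (fun x : ℝ => Complex.exp (l x) / F 1) (Set.Ioo 1 (1 + δ)) :=
      ((Complex.continuous_exp.comp_continuousOn (hl.mono fun x hx => hx.1)).div_const _)
    refine h5.congr fun x hx => ?_
    show F (x : ℂ) / F 1 = Complex.exp (l x) / F 1
    rw [h x hx.1]
  have hsl : ∀ x ∈ Set.Ioo (1 : ℝ) (1 + δ), F (x : ℂ) / F 1 ∈ Complex.slitPlane := by
    intro x hx
    have h5 := h4 x hx
    rw [Complex.mem_slitPlane_iff]
    left
    have h6 := Complex.abs_re_le_norm (F (x : ℂ) / F 1 - 1)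
    rw [Complex.sub_re, Complex.one_re] at h6
    have h7 := (abs_le.1 (h6.trans h5.le)).1
    linarith
  have hlog : ContinuousOn (fun x : ℝ => Complex.log (F (x : ℂ) / F 1)) (Set.Ioo 1 (1 + δ)) :=
    fun x hx => (hG x hx).clog (hsl x hx)
  have hne : ∀ x ∈ Set.Ioo (1 : ℝ) (1 + δ), F (x : ℂ) ≠ 0 := by
    intro x hx
    rw [← h x hx.1]
    exact Complex.exp_ne_zero _
  have hc := exp_const (g := fun x => l x - Complex.log (F (x : ℂ) / F 1)) (w := F 1)
    ((hl.mono fun x hx => hx.1).sub hlog) (by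
      intro x hx
      have h5 := hne x hx
      rw [Complex.exp_sub, h x hx.1, Complex.exp_log (div_ne_zero h5 hF1)]
      field_simp)
  have hy : (1 + δ / 2) ∈ Set.Ioo (1 : ℝ) (1 + δ) := ⟨by linarith, by linarith⟩
  refine ⟨‖l (1 + δ / 2) - Complex.log (F ((1 + δ / 2 : ℝ) : ℂ) / F 1)‖ + 3 / 4, ?_⟩
  have hmem : ∀ᶠ x : ℝ in 𝓝[>] 1, x ∈ Set.Ioo (1 : ℝ) (1 + δ) :=
    Ioo_mem_nhdsGT (by linarith)
  filter_upwards [hmem] with x hx
  have h5 := hc x hx _ hy
  have h6 : ‖Complex.log (F (x : ℂ) / F 1)‖ ≤ 3 / 4 := by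
    have h7 := Complex.norm_log_one_add_half_le_self (z := F (x : ℂ) / F 1 - 1) (h4 x hx).le
    rw [add_sub_cancel] at h7
    have := h4 x hx
    linarith
  have h7 : l x = (l (1 + δ / 2) - Complex.log (F ((1 + δ / 2 : ℝ) : ℂ) / F 1)) +
      Complex.log (F (x : ℂ) / F 1) := by
    rw [← h5]
    ring
  rw [h7]
  exact (norm_add_le _ _).trans (add_le_add le_rfl h6)

/-! ### The logarithms of the L-functions -/

section
variable {F : Type} [Field F] [NumberField F]

/-- the size of the terms -/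
noncomputable def cN (x : ℝ) (y : HeightOneSpectrum (𝓞 F) × ℕ) : ℝ :=
  ((nm y.1 : ℝ) ^ (-x)) ^ (y.2 + 1) / ((y.2 + 1 : ℕ) : ℝ)

lemma nm_pos (v : HeightOneSpectrum (𝓞 F)) : (0 : ℝ) < nm v := by
  have := one_lt_nm v
  linarith

lemma rp_pos (v : HeightOneSpectrum (𝓞 F)) (x : ℝ) : (0 : ℝ) < (nm v : ℝ) ^ (-x) :=
  Real.rpow_pos_of_pos (nm_pos v) _

lemma cN_nonneg (x : ℝ) (y : HeightOneSpectrum (𝓞 F) × ℕ) : 0 ≤ cN x y := by
  unfold cN
  have := rp_pos y.1 x
  positivity

lemma cN_le (x : ℝ) (y : HeightOneSpectrum (𝓞 F) × ℕ) :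
    cN x y ≤ ((nm y.1 : ℝ) ^ (-x)) ^ (y.2 + 1) := by
  unfold cN
  have := rp_pos y.1 x
  refine div_le_self (by positivity) ?_
  exact_mod_cast (by omega : 1 ≤ y.2 + 1)

lemma cN_anti {a x : ℝ} (h : a ≤ x) (y : HeightOneSpectrum (𝓞 F) × ℕ) :
    cN x y ≤ ((nm y.1 : ℝ) ^ (-a)) ^ (y.2 + 1) := by
  refine (cN_le x y).trans (pow_le_pow_left₀ (rp_pos y.1 x).le ?_ _)
  exact Real.rpow_le_rpow_of_exponent_le (one_lt_nm y.1).le (by linarith)

lemma cN_cont (y : HeightOneSpectrum (𝓞 F) × ℕ) : Continuous fun x : ℝ => cN x y := by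
  unfold cN
  have h1 : Continuous fun x : ℝ => (nm y.1 : ℝ) ^ (-x) :=
    Real.continuous_const_rpow (nm_pos y.1).ne' |>.comp continuous_neg
  exact (h1.pow _).div_const _

open scoped Classical in
lemma lt_eq {G : Type} [AddCommGroup G] (q : Dv F →+ G) (N : ℕ) (χ : AddChar G ℂ) (x : ℝ)
    (y : HeightOneSpectrum (𝓞 F) × ℕ) : lt N (cc q χ) (x : ℂ) y =
      if (N : 𝓞 F) ∈ y.1.asIdeal then 0 else
        χ ((y.2 + 1) • q (Finsupp.single y.1 1)) * (cN x y : ℂ) := by
  unfold lt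
  by_cases hN : (N : 𝓞 F) ∈ y.1.asIdeal
  · rw [if_pos hN, if_pos hN]
  · rw [if_neg hN, if_neg hN, cc_apply, pw_eq, inv_pw_eq, AddChar.map_nsmul_eq_pow, div_eq_mul_inv,
      ← Complex.ofReal_inv]
    unfold cN
    congr 2
    rw [mul_inv, inv_inv]
    ring

lemma lt_norm {G : Type} [AddCommGroup G] [Finite G] (q : Dv F →+ G) (N : ℕ) (χ : AddChar G ℂ)
    (x : ℝ) (y : HeightOneSpectrum (𝓞 F) × ℕ) : ‖lt N (cc q χ) (x : ℂ) y‖ ≤ cN x y := by
  classical
  rw [lt_eq]
  split_ifs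
  · rw [norm_zero]
    exact cN_nonneg _ _
  · rw [norm_mul, AddChar.norm_apply, one_mul, Complex.norm_real, Real.norm_eq_abs,
      abs_of_nonneg (cN_nonneg _ _)]

lemma ell_cont {G : Type} [AddCommGroup G] [Finite G] (q : Dv F →+ G) (N : ℕ) (χ : AddChar G ℂ) :
    ContinuousOn (fun x : ℝ => ∑' y, lt N (cc q χ) (x : ℂ) y) (Set.Ioi 1) := by
  intro x hx
  have hx1 : 1 < x := hx
  have ha : 1 < (1 + x) / 2 := by linarith
  have h1 : ContinuousOn (fun x : ℝ => ∑' y, lt N (cc q χ) (x : ℂ) y) (Set.Ioi ((1 + x) / 2)) := by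
    refine continuousOn_tsum (fun y => ?_) (geom_summable (F := F) ha) ?_
    · refine Continuous.continuousOn ?_
      classical
      simp_rw [lt_eq]
      split_ifs
      · exact continuous_const
      · exact continuous_const.mul (Complex.continuous_ofReal.comp (cN_cont y))
    · intro y t ht
      exact (lt_norm q N χ t y).trans (cN_anti (le_of_lt ht) y)
  exact (h1.continuousAt (Ioi_mem_nhds (by linarith))).continuousWithinAt

/-- the character of the ideals is a character modulo `N` -/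
theorem modChar {N : ℕ} (hN : 2 ≤ N) {χ : Dv F →+ Additive ℂˣ}
    (hχ : ∀ x ∈ Ray F N, χ (prin x) = 0) :
    ∃ e, Pool.Agent.Y773.G.IsModChar (Ideal.span {(N : 𝓞 F)}) e (psi N χ) := by
  classical
  have h0 : (Ideal.span {(N : 𝓞 F)}) ≠ ⊥ := by
    rw [Ne, Ideal.span_singleton_eq_bot]
    exact_mod_cast (by omega : N ≠ 0)
  have h1 : (Ideal.span {(N : 𝓞 F)}) ≠ ⊤ := by
    intro h
    have h2 := Ideal.absNorm_eq_one_iff.2 h
    rw [Ideal.absNorm_span_natCast] at h2
    have h3 : 0 < Module.finrank ℤ (𝓞 F) := Module.finrank_pos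
    rcases Nat.pow_eq_one.1 h2 with h4 | h4 <;> omega
  refine Pool.Agent.Y772.G.exists_sig h0 h1 ?_ ?_
  · intro 𝔞 ha
    rw [psi_apply]
    constructor
    · intro h
      by_contra h1
      exact h (if_neg fun h2 => h1 h2.2)
    · intro h
      rw [if_pos ⟨ha, h⟩]
      exact Units.ne_zero _
  · intro x hx0 hx1 hxp
    have hx0F : (x : F) ≠ 0 := by
      intro h
      exact hx0 (by exact_mod_cast h)
    have h1 : IsCoprime (Ideal.span {x}) (Ideal.span {(N : 𝓞 F)}) :=
      Pool.Agent.Y772.G.coprime_of_sub_one hx1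
    rw [psi_apply, if_pos ⟨by rwa [Ne, Ideal.span_singleton_eq_bot], h1⟩,
      dv_span (Units.mk0 (x : F) hx0F) rfl, hχ]
    · rfl
    · refine ⟨?_, ?_⟩
      · intro v hv
        rw [Units.val_mk0]
        obtain ⟨c, hc⟩ := Ideal.mem_span_singleton.1 hx1
        have h2 : (x : F) - 1 = (N : F) * (c : F) := by
          have := congrArg (algebraMap (𝓞 F) F) hc
          rw [map_sub, map_one, map_mul, map_natCast] at this
          exact this
        rw [h2, map_mul]
        calc v.valuation F (N : F) * v.valuation F (c : F) ≤ v.valuation F (N : F) * 1 :=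
              mul_le_mul' le_rfl (v.valuation_le_one _)
          _ = _ := mul_one _
      · rw [Units.val_mk0]
        exact hxp

/-- the logarithms of the L-functions of the nontrivial characters are bounded near `1` -/
theorem ell_bdd {N : ℕ} (hN : 2 ≤ N) {G : Type} [AddCommGroup G] [Finite G] (q : Dv F →+ G)
    (hq : ∀ x ∈ Ray F N, q (prin x) = 0) (hsurj : ∀ g : G, ∃ D ∈ Pr F N, q D = g)
    (χ : AddChar G ℂ) (hχ : χ ≠ 0) :
    ∃ C : ℝ, ∀ᶠ x : ℝ in 𝓝[>] 1, ‖∑' y, lt N (cc q χ) (x : ℂ) y‖ ≤ C := by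
  classical
  obtain ⟨e, he⟩ := modChar hN (χ := cc q χ) (fun x hx => by
    rw [cc_eq_zero, hq x hx, AddChar.map_zero_eq_one])
  have hn : ∃ 𝔞, IsCoprime 𝔞 (Ideal.span {(N : 𝓞 F)}) ∧ psi N (cc q χ) 𝔞 ≠ 1 := by
    by_contra hcon
    push Not at hcon
    obtain ⟨g, hg⟩ := AddChar.ne_zero_iff.1 hχ
    obtain ⟨D, hD, rfl⟩ := hsurj g
    apply hg
    rw [← cc_eq_zero q χ D]
    have h1 : D = ∑ v ∈ D.support, D v • Finsupp.single v (1 : ℤ) := by
      conv_lhs => rw [← Finsupp.sum_single D]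
      refine Finset.sum_congr rfl fun v _ => ?_
      rw [Finsupp.smul_single, smul_eq_mul, mul_one]
    rw [h1, map_sum]
    refine Finset.sum_eq_zero fun v _ => ?_
    rw [map_zsmul]
    by_cases hv : (N : 𝓞 F) ∈ v.asIdeal
    · rw [hD v hv, zero_smul]
    · have hc : IsCoprime v.asIdeal (Ideal.span {(N : 𝓞 F)}) := (cop_v N v).2 hv
      have h2 := hcon v.asIdeal hc
      rw [psi_apply, if_pos ⟨v.ne_bot, hc⟩, dv_prime] at h2
      have h3 : cc q χ (Finsupp.single v 1) = 0 := by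
        have h4 : (cc q χ (Finsupp.single v 1)).toMul = 1 := Units.ext h2
        exact h4
      rw [h3, smul_zero]
  obtain ⟨Fn, hFd, hFL⟩ := Pool.Agent.Y773.G.t_ent F _ _ e he hn
  have hF1 : Fn 1 ≠ 0 := Pool.Agent.Y772.G.nv_tot Pool.Agent.Y773.G.t_ent he (s₀ := 1)
    Complex.one_re (hFd.analyticAt 1) (Eventually.of_forall hFL)
  refine bdd_of_exp hFd.continuous.continuousAt hF1 (ell_cont q N χ) ?_
  intro x hx
  have hx' : 1 < ((x : ℂ)).re := by simpa using hx
  rw [hFL _ hx', ← Pool.Agent.Q84.AR.Lc_eq (Pool.Agent.Y772.G.mc_le he) hx',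
    Pool.Agent.Q128.AR.Lc_eq]

/-- the primes of degree at least two -/
theorem deg2 (F : Type) [Field F] [NumberField F] {x : ℝ} (hx : 1 < x) (A : Finset (HeightOneSpectrum (𝓞 F))) :
    ∑ w ∈ A, (if (nm w).Prime then 0 else (nm w : ℝ) ^ (-x)) ≤ (Module.finrank ℚ F : ℝ) * CK ℚ := by
  classical
  have hs3 := nm_summable (K := ℚ) (x := 2 * x) (by linarith)
  have h4 : ∑ w ∈ A, (if (nm w).Prime then 0 else (nm w : ℝ) ^ (-x)) =
      ∑ v ∈ A.image (fun w => w.under (𝓞 ℚ)),
      ∑ w ∈ A with w.under (𝓞 ℚ) = v, (if (nm w).Prime then 0 else (nm w : ℝ) ^ (-x)) :=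
    (Finset.sum_fiberwise_of_maps_to (fun w hw => Finset.mem_image_of_mem _ hw) _).symm
  rw [h4]
  have h5 : ∀ v : HeightOneSpectrum (𝓞 ℚ),
      ∑ w ∈ A with w.under (𝓞 ℚ) = v, (if (nm w).Prime then 0 else (nm w : ℝ) ^ (-x)) ≤
      (Module.finrank ℚ F : ℝ) * (nm v : ℝ) ^ (-(2 * x)) := by
    intro v
    have h6 : ∀ w ∈ A.filter (fun w => w.under (𝓞 ℚ) = v),
        (if (nm w).Prime then 0 else (nm w : ℝ) ^ (-x)) ≤ (nm v : ℝ) ^ (-(2 * x)) := by
      intro w hw
      have hwv := (Finset.mem_filter.1 hw).2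
      split_ifs with hp
      · exact (rp_pos v _).le
      · have h7 : nm w = nm v ^ rdeg ℚ w := by
          unfold nm
          rw [absNorm_rdeg (K := ℚ), hwv]
        have h8 : rdeg ℚ w ≠ 1 := by
          intro h9
          rw [h9, pow_one] at h7
          apply hp
          rw [h7]
          exact Pool.Agent.Q92.FP.absNorm_prime v
        have h9 : 0 < rdeg ℚ w := rdeg_pos w
        have h10 : 2 ≤ rdeg ℚ w := by omega
        have h11 : (nm v : ℝ) ^ (2 : ℕ) ≤ (nm w : ℝ) := by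
          rw [h7]
          push_cast
          exact pow_le_pow_right₀ (one_lt_nm v).le h10
        calc (nm w : ℝ) ^ (-x) ≤ ((nm v : ℝ) ^ (2 : ℕ)) ^ (-x) := by
              refine Real.rpow_le_rpow_of_nonpos ?_ h11 (by linarith)
              have := nm_pos v
              positivity
          _ = (nm v : ℝ) ^ (-(2 * x)) := by
              rw [← Real.rpow_natCast, ← Real.rpow_mul (nm_pos v).le]
              congr 1
              push_cast
              ring
    refine (Finset.sum_le_sum h6).trans ?_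
    rw [Finset.sum_const, nsmul_eq_mul]
    refine mul_le_mul_of_nonneg_right ?_ (rp_pos v _).le
    have h7 : (A.filter (fun w => w.under (𝓞 ℚ) = v)).card ≤ (above F v).card := by
      refine Finset.card_le_card fun w hw => ?_
      exact mem_above.2 (Finset.mem_filter.1 hw).2
    exact_mod_cast h7.trans (above_card_le (E := F) v)
  refine (Finset.sum_le_sum fun v _ => h5 v).trans ?_
  rw [← Finset.mul_sum]
  refine mul_le_mul_of_nonneg_left ?_ (by positivity)
  refine (hs3.sum_le_tsum _ fun v _ => (rp_pos v _).le).trans ?_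
  exact tsum_nm_two_mul_le (K := ℚ) hx

/-- **Dirichlet's theorem** in the form of classes of divisors -/
theorem dir_class {N : ℕ} (hN : 2 ≤ N) {G : Type} [AddCommGroup G] [Finite G] (q : Dv F →+ G)
    (hq : ∀ x ∈ Ray F N, q (prin x) = 0) (hsurj : ∀ g : G, ∃ D ∈ Pr F N, q D = g) (g0 : G)
    (B : ℕ) : ∃ v : HeightOneSpectrum (𝓞 F), (N : 𝓞 F) ∉ v.asIdeal ∧
      q (Finsupp.single v 1) = g0 ∧ (nm v).Prime ∧ B < nm v := by
  classical
  by_contra hcon
  push Not at hcon
  let _ : Fintype G := Fintype.ofFinite G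
  -- bounds for the nontrivial characters
  have hup : ∀ χ : AddChar G ℂ, ∃ C : ℝ, ∀ᶠ x : ℝ in 𝓝[>] 1,
      χ ≠ 0 → ‖∑' y, lt N (cc q χ) (x : ℂ) y‖ ≤ C := by
    intro χ
    by_cases hχ : χ = 0
    · exact ⟨0, Eventually.of_forall fun x h => absurd hχ h⟩
    · obtain ⟨C, hC⟩ := ell_bdd hN q hq hsurj χ hχ
      exact ⟨C, hC.mono fun x hx _ => hx⟩
  choose C hC using hup
  have hall := Filter.eventually_all.2 hC
  obtain ⟨C2, hC2⟩ := prime_sum_bdd (K := F)
  -- the finite set of small primes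
  have hfin : {v : HeightOneSpectrum (𝓞 F) | nm v ≤ B}.Finite := by
    have h1 : {I : Ideal (𝓞 F) | Ideal.absNorm I ≤ B}.Finite := Ideal.finite_setOf_absNorm_le B
    exact Set.Finite.preimage (f := fun v : HeightOneSpectrum (𝓞 F) => v.asIdeal)
      (fun v _ w _ h => HeightOneSpectrum.ext h) h1
  set Sm : HeightOneSpectrum (𝓞 F) → ℝ := fun v => if nm v ≤ B then 1 else 0 with hSm
  have hSms : Summable Sm := by
    refine summable_of_ne_finset_zero (s := hfin.toFinset) fun v hv => ?_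
    rw [hSm]
    simp only
    rw [if_neg]
    intro h
    exact hv (hfin.mem_toFinset.2 h)
  set C3 := ∑' v, Sm v with hC3
  set C4 := (Module.finrank ℚ F : ℝ) * CK ℚ with hC4
  set C5 := ∑' v, bt F N v with hC5
  set h := Fintype.card G with hh
  set CC := ∑ χ : AddChar G ℂ, |C χ| with hCC
  have hself : ∀ᶠ x : ℝ in 𝓝[>] 1, x ∈ Set.Ioi (1 : ℝ) := self_mem_nhdsWithin
  obtain ⟨x, ⟨hxC, hx2⟩, hx1, hxL⟩ := ((hall.and hC2).and (hself.and
    (Lam_tendsto.eventually_gt_atTop ((h : ℝ) * (C3 + C4 + 2 * CK F) + CC + C2 + C5)))).exists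
  have hx1' : (1 : ℝ) < x := hx1
  -- the sum over the class
  set R : HeightOneSpectrum (𝓞 F) × ℕ → ℝ := fun y =>
    if (N : 𝓞 F) ∉ y.1.asIdeal ∧ (y.2 + 1) • q (Finsupp.single y.1 1) = g0 then cN x y else 0
    with hR
  have hR0 : ∀ y, 0 ≤ R y := by
    intro y
    simp only [hR]
    split_ifs
    · exact cN_nonneg _ _
    · exact le_rfl
  have hRle : ∀ y, R y ≤ cN x y := by
    intro y
    simp only [hR]
    split_ifs
    · exact le_rfl
    · exact cN_nonneg _ _
  have hcNs : Summable (fun y : HeightOneSpectrum (𝓞 F) × ℕ => cN x y) :=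
    Summable.of_nonneg_of_le (fun y => cN_nonneg _ _) (fun y => cN_le x y) (geom_summable hx1')
  have hRs : Summable R := Summable.of_nonneg_of_le hR0 hRle hcNs
  have hterm : ∀ y, ∑ χ : AddChar G ℂ, χ (-g0) * lt N (cc q χ) (x : ℂ) y = ((h * R y : ℝ) : ℂ) := by
    intro y
    simp only [hR]
    by_cases hNy : (N : 𝓞 F) ∈ y.1.asIdeal
    · rw [if_neg (fun h => h.1 hNy), mul_zero, Complex.ofReal_zero]
      refine Finset.sum_eq_zero fun χ _ => ?_
      rw [lt_eq, if_pos hNy, mul_zero]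
    · have h1 : ∀ χ : AddChar G ℂ, χ (-g0) * lt N (cc q χ) (x : ℂ) y =
          χ ((y.2 + 1) • q (Finsupp.single y.1 1) - g0) * (cN x y : ℂ) := by
        intro χ
        rw [lt_eq, if_neg hNy, sub_eq_add_neg, AddChar.map_add_eq_mul]
        ring
      rw [Finset.sum_congr rfl fun χ _ => h1 χ, ← Finset.sum_mul, AddChar.sum_apply_eq_ite]
      by_cases h2 : (y.2 + 1) • q (Finsupp.single y.1 1) = g0
      · rw [if_pos (sub_eq_zero.2 h2), if_pos ⟨hNy, h2⟩]
        push_cast
        rfl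
      · rw [if_neg (fun h => h2 (sub_eq_zero.1 h)), if_neg (fun h => h2 h.2)]
        simp
  have hsum : HasSum (fun y => ((h * R y : ℝ) : ℂ))
      (∑ χ : AddChar G ℂ, χ (-g0) * ∑' y, lt N (cc q χ) (x : ℂ) y) := by
    have h1 : HasSum (fun y => ∑ χ : AddChar G ℂ, χ (-g0) * lt N (cc q χ) (x : ℂ) y)
        (∑ χ : AddChar G ℂ, χ (-g0) * ∑' y, lt N (cc q χ) (x : ℂ) y) :=
      hasSum_sum fun χ _ => (lt_summable q χ N hx1').hasSum.mul_left _
    exact (funext hterm : (fun y => ∑ χ : AddChar G ℂ, χ (-g0) * lt N (cc q χ) (x : ℂ) y) = _) ▸ h1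
  have hsum2 : (h : ℝ) * ∑' y, R y =
      (∑ χ : AddChar G ℂ, χ (-g0) * ∑' y, lt N (cc q χ) (x : ℂ) y).re := by
    have h1 := Complex.hasSum_re hsum
    have h2 : (fun y => (((h * R y : ℝ) : ℂ)).re) = fun y => (h : ℝ) * R y := by
      funext y
      rw [Complex.ofReal_re]
    rw [h2] at h1
    rw [← tsum_mul_left]
    exact h1.tsum_eq
  -- lower bound for the trivial character
  have hlow : Lam x - C2 - C5 ≤ (∑' y, lt N (cc q (0 : AddChar G ℂ)) (x : ℂ) y).re := by
    have h1 : HasSum (fun y : HeightOneSpectrum (𝓞 F) × ℕ =>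
        if (N : 𝓞 F) ∈ y.1.asIdeal then 0 else cN x y)
        (∑' y, lt N (cc q (0 : AddChar G ℂ)) (x : ℂ) y).re := by
      have h2 := Complex.hasSum_re (lt_summable q (0 : AddChar G ℂ) N hx1').hasSum
      have h3 : (fun y => (lt N (cc q (0 : AddChar G ℂ)) (x : ℂ) y).re) = fun y =>
          if (N : 𝓞 F) ∈ y.1.asIdeal then 0 else cN x y := by
        funext y
        rw [lt_eq]
        split_ifs
        · rfl
        · rw [AddChar.zero_apply, one_mul, Complex.ofReal_re]
      rw [h3] at h2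
      exact h2
    rw [← h1.tsum_eq]
    have hi : Function.Injective (fun v : HeightOneSpectrum (𝓞 F) => (v, 0)) := by
      intro v w h
      exact (Prod.mk.inj h).1
    refine le_trans ?_ (tsum_comp_le_tsum_of_inj h1.summable (fun y => ?_) hi)
    · have h2 : ∀ v : HeightOneSpectrum (𝓞 F), (nm v : ℝ) ^ (-x) - bt F N v ≤
          ((fun y : HeightOneSpectrum (𝓞 F) × ℕ =>
            if (N : 𝓞 F) ∈ y.1.asIdeal then 0 else cN x y) ∘ fun v => (v, 0)) v := by
        intro v
        simp only [Function.comp_apply]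
        unfold bt
        split_ifs
        · have := Real.rpow_le_one_of_one_le_of_nonpos (one_lt_nm v).le
            (show -x ≤ 0 by linarith)
          linarith
        · unfold cN
          simp
      have hN0 : N ≠ 0 := by omega
      have h3 := ((nm_summable (K := F) hx1').sub (bt_summable hN0)).tsum_le_tsum h2
        (h1.summable.comp_injective hi)
      rw [(nm_summable (K := F) hx1').tsum_sub (bt_summable hN0)] at h3
      have h4 := (abs_le.1 hx2).1
      linarith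
    · split_ifs
      · exact le_rfl
      · exact cN_nonneg _ _
  -- lower bound for the sum over the class
  have hlow2 : Lam x - C2 - C5 - CC ≤ (h : ℝ) * ∑' y, R y := by
    rw [hsum2, ← Finset.add_sum_erase _ _ (Finset.mem_univ (0 : AddChar G ℂ)), Complex.add_re,
      AddChar.zero_apply, one_mul]
    have h1 : -CC ≤ (∑ χ ∈ Finset.univ.erase (0 : AddChar G ℂ),
        χ (-g0) * ∑' y, lt N (cc q χ) (x : ℂ) y).re := by
      have h2 : ‖∑ χ ∈ Finset.univ.erase (0 : AddChar G ℂ),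
          χ (-g0) * ∑' y, lt N (cc q χ) (x : ℂ) y‖ ≤ CC := by
        refine (norm_sum_le _ _).trans ?_
        refine (Finset.sum_le_sum (g := fun χ => |C χ|) fun χ hχ => ?_).trans
          (Finset.sum_le_sum_of_subset_of_nonneg (Finset.subset_univ _) fun _ _ _ => abs_nonneg _)
        rw [norm_mul, AddChar.norm_apply, one_mul]
        exact (hxC χ (Finset.ne_of_mem_erase hχ)).trans (le_abs_self _)
      have h3 := Complex.abs_re_le_norm (∑ χ ∈ Finset.univ.erase (0 : AddChar G ℂ),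
        χ (-g0) * ∑' y, lt N (cc q χ) (x : ℂ) y)
      have h4 := (abs_le.1 (h3.trans h2)).1
      exact h4
    linarith
  -- upper bound for the sum over the class
  have hup2 : ∑' y, R y ≤ C3 + C4 + 2 * CK F := by
    have hA2 : Summable (fun v : HeightOneSpectrum (𝓞 F) =>
        (if (nm v).Prime then 0 else (nm v : ℝ) ^ (-x))) :=
      summable_of_sum_le (fun v => by
        split_ifs
        · exact le_rfl
        · exact (rp_pos v _).le) (deg2 F hx1')
    have hA2b : ∑' v : HeightOneSpectrum (𝓞 F),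
        (if (nm v).Prime then 0 else (nm v : ℝ) ^ (-x)) ≤ C4 :=
      hA2.tsum_le_of_sum_le (deg2 F hx1')
    have hA3 : Summable (fun v : HeightOneSpectrum (𝓞 F) => 2 * (nm v : ℝ) ^ (-(2 * x))) :=
      (nm_summable (K := F) (x := 2 * x) (by linarith)).mul_left 2
    have hA3b : ∑' v : HeightOneSpectrum (𝓞 F), 2 * (nm v : ℝ) ^ (-(2 * x)) ≤ 2 * CK F := by
      rw [tsum_mul_left]
      exact mul_le_mul_of_nonneg_left (tsum_nm_two_mul_le (K := F) hx1') (by norm_num)
    have hAs := (hSms.add hA2).add hA3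
    have hAt : ∑' v : HeightOneSpectrum (𝓞 F), (Sm v +
        (if (nm v).Prime then 0 else (nm v : ℝ) ^ (-x)) + 2 * (nm v : ℝ) ^ (-(2 * x))) ≤
        C3 + C4 + 2 * CK F := by
      rw [(hSms.add hA2).tsum_add hA3, hSms.tsum_add hA2]
      linarith
    refine le_trans ?_ hAt
    rw [hRs.tsum_prod]
    refine hRs.prod.tsum_le_tsum (fun v => ?_) hAs
    set r := (nm v : ℝ) ^ (-x) with hr
    have hr0 : 0 < r := rp_pos v x
    have hr1 : r ≤ 1 / 2 := nm_rpow_le_half v hx1'.le
    have hsv : Summable fun k : ℕ => R (v, k) := hRs.prod_factor v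
    rw [hsv.tsum_eq_zero_add]
    have h1 : R (v, 0) ≤ Sm v + (if (nm v).Prime then 0 else r) := by
      simp only [hR, hSm]
      by_cases h2 : (N : 𝓞 F) ∉ v.asIdeal ∧ (0 + 1) • q (Finsupp.single v 1) = g0
      · rw [if_pos h2]
        have h3 : cN x (v, 0) = r := by
          unfold cN
          simp [hr]
        rw [h3]
        rw [zero_add, one_smul] at h2
        by_cases h4 : nm v ≤ B
        · rw [if_pos h4]
          split_ifs <;> linarith
        · rw [if_neg h4, if_neg, zero_add]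
          intro h5
          exact h4 (hcon v h2.1 h2.2 h5)
      · rw [if_neg h2]
        split_ifs <;> linarith
    have hgs : Summable fun k : ℕ => r ^ (k + 2) := by
      simp_rw [pow_add]
      exact (summable_geometric_of_lt_one hr0.le (by linarith)).mul_right _
    have h2 : ∑' k : ℕ, R (v, k + 1) ≤ ∑' k : ℕ, r ^ (k + 2) := by
      refine Summable.tsum_le_tsum (fun k => ?_) ((summable_nat_add_iff 1).2 hsv) hgs
      refine (hRle _).trans ((cN_le x _).trans (le_of_eq ?_))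
      rfl
    have h3 : ∑' k : ℕ, r ^ (k + 2) = (1 - r)⁻¹ * r ^ 2 := by
      simp_rw [pow_add]
      rw [tsum_mul_right, tsum_geometric_of_lt_one hr0.le (by linarith)]
    have h4 : (1 - r)⁻¹ ≤ 2 := by
      rw [inv_le_comm₀ (by linarith) (by norm_num)]
      linarith
    have h5 : (1 - r)⁻¹ * r ^ 2 ≤ 2 * (nm v : ℝ) ^ (-(2 * x)) := by
      rw [← rpow_sq']
      exact mul_le_mul_of_nonneg_right h4 (by positivity)
    linarith
  have hh0 : (0 : ℝ) ≤ h := by positivity
  have h9 := mul_le_mul_of_nonneg_left hup2 hh0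
  linarith

end

/-! ### From divisors to ideals -/

section
variable {F : Type} [Field F] [NumberField F]

theorem eq_of_dv {I J : Ideal (𝓞 F)} (hI : I ≠ ⊥) (hJ : J ≠ ⊥) (h : dv I = dv J) : I = J := by
  have h1 : (I : FractionalIdeal (nonZeroDivisors (𝓞 F)) F) = J := by
    rw [← FractionalIdeal.finprod_heightOneSpectrum_factorization' F
        (FractionalIdeal.coeIdeal_ne_zero.2 hI : (I : FractionalIdeal (nonZeroDivisors (𝓞 F)) F) ≠ 0),
      ← FractionalIdeal.finprod_heightOneSpectrum_factorization' F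
        (FractionalIdeal.coeIdeal_ne_zero.2 hJ : (J : FractionalIdeal (nonZeroDivisors (𝓞 F)) F) ≠ 0)]
    refine finprod_congr fun v => ?_
    rw [← Pool.Agent.Q84.AR.dv_apply, ← Pool.Agent.Q84.AR.dv_apply, h]
  exact FractionalIdeal.coeIdeal_injective h1

/-- the case of a modulus at least two and a totally positive residue -/
theorem main_aux {N : ℕ} (hN : 2 ≤ N) (x1 : 𝓞 F) (h0 : x1 ≠ 0) (hp : Pos (x1 : F))
    (hc : IsCoprime (Ideal.span {x1}) (Ideal.span {(N : 𝓞 F)})) (B : ℕ) :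
    ∃ (v : HeightOneSpectrum (𝓞 F)) (y : 𝓞 F), v.asIdeal = Ideal.span {y} ∧ (N : 𝓞 F) ∣ y - x1 ∧
      Pos (y : F) ∧ (Ideal.absNorm v.asIdeal).Prime ∧ B < Ideal.absNorm v.asIdeal := by
  classical
  have hN0 : N ≠ 0 := by omega
  have hx0 : (x1 : F) ≠ 0 := RingOfIntegers.coe_ne_zero_iff.2 h0
  set X : Fˣ := Units.mk0 (x1 : F) hx0 with hX
  -- the divisor of `x1`
  have hv1 : ∀ v : HeightOneSpectrum (𝓞 F), (N : 𝓞 F) ∈ v.asIdeal → v.valuation F (x1 : F) = 1 := by
    intro v hv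
    have h1 : x1 ∉ v.asIdeal := by
      intro h2
      have h3 : Ideal.span {x1} ⊔ Ideal.span {(N : 𝓞 F)} ≤ v.asIdeal :=
        sup_le ((Ideal.span_singleton_le_iff_mem _).2 h2) ((Ideal.span_singleton_le_iff_mem _).2 hv)
      rw [Ideal.isCoprime_iff_sup_eq.1 hc, top_le_iff] at h3
      exact v.isPrime.ne_top h3
    exact (HeightOneSpectrum.valuation_eq_one_iff_notMem (K := F) (v := v)).2 h1
  have hD0 : prin X ∈ Pr F N := by
    rw [mem_Pr]
    intro v hv
    rw [Pool.Agent.Q182.AR.prin_eq_zero_iff]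
    exact hv1 v hv
  have hFin := all_Fin F N hN0
  set H' : AddSubgroup (Pr F N) := (RayD F N).addSubgroupOf (Pr F N) with hH'
  have hfi : H'.FiniteIndex := ⟨hFin⟩
  have hfinG : Finite (Pr F N ⧸ H') := inferInstance
  let q : Dv F →+ (Pr F N ⧸ H') := (QuotientAddGroup.mk' H').comp (prj F N)
  have hq : ∀ D, D ∈ Pr F N → (q D = 0 ↔ D ∈ RayD F N) := by
    intro D hD
    change QuotientAddGroup.mk' H' (prj F N D) = 0 ↔ _
    rw [prj_of_mem hD, QuotientAddGroup.mk'_apply, QuotientAddGroup.eq_zero_iff]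
    exact AddSubgroup.mem_addSubgroupOf
  have hray : ∀ x ∈ Ray F N, q (prin x) = 0 := fun x hx =>
    (hq _ (ray_mem_Pr hx)).2 (AddSubgroup.subset_closure ⟨x, hx, rfl⟩)
  have hsurj : ∀ g : (Pr F N ⧸ H'), ∃ D ∈ Pr F N, q D = g := by
    intro g
    obtain ⟨D, rfl⟩ := QuotientAddGroup.mk'_surjective H' g
    refine ⟨D.1, D.2, ?_⟩
    change QuotientAddGroup.mk' H' (prj F N D.1) = _
    rw [prj_of_mem D.2]
  obtain ⟨v, hvN, hvq, hvp, hvB⟩ := dir_class hN q hray hsurj (q (prin X)) B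
  have hsv : Finsupp.single v (1 : ℤ) ∈ Pr F N := by
    intro u hu
    rw [Finsupp.single_apply, if_neg]
    rintro rfl
    exact hvN hu
  have h1 : Finsupp.single v (1 : ℤ) - prin X ∈ RayD F N := by
    rw [← hq _ (sub_mem hsv hD0), map_sub, hvq, sub_self]
  obtain ⟨r, hr, hrD⟩ := Pool.Agent.Q182.AR.mem_RayD.1 h1
  -- the generator
  have hY : prin (X * r) = Finsupp.single v 1 := by
    rw [prin_mul, hrD]
    abel
  have hint : ((X * r : Fˣ) : F) ∈ (algebraMap (𝓞 F) F).range := by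
    apply HeightOneSpectrum.mem_integers_of_valuation_le_one
    intro w
    rw [val_prin, hY, ← WithZero.exp_zero, WithZero.exp_le_exp, Finsupp.single_apply]
    split_ifs <;> norm_num
  obtain ⟨y, hy⟩ := hint
  have hyF : (y : F) = ((X * r : Fˣ) : F) := hy
  have hy0 : y ≠ 0 := by
    rintro rfl
    apply (X * r).ne_zero
    rw [← hy, map_zero]
  refine ⟨v, y, ?_, ?_, ?_, hvp, hvB⟩
  · refine eq_of_dv v.ne_bot ?_ ?_
    · rwa [Ne, Ideal.span_singleton_eq_bot]
    · rw [dv_prime, dv_span (X * r) hyF.symm, hY]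
  · apply Pool.Agent.Q84.AR.dvd_of_val hN0
    intro w hw
    have h2 : ((y - x1 : 𝓞 F) : F) = (x1 : F) * ((r : F) - 1) := by
      have h3 : ((y - x1 : 𝓞 F) : F) = (y : F) - (x1 : F) := map_sub (algebraMap (𝓞 F) F) _ _
      rw [h3, hyF, Units.val_mul, hX, Units.val_mk0]
      ring
    rw [h2, map_mul, hv1 w hw, one_mul]
    exact hr.1 w hw
  · rw [hyF, Units.val_mul]
    refine Pool.Agent.Q182.AR.pos_mul ?_ hr.2
    rw [hX, Units.val_mk0]
    exact hp

end

theorem main : Pool.Agent.H500.HC.S_Dir := by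
  intro K _ _ M x0 hM hc B
  by_cases hM1 : M = 1
  · subst hM1
    have h2 : (2 : ℕ) ≤ 2 := le_rfl
    obtain ⟨v, y, h3, -, h5, h6, h7⟩ := main_aux (F := K) (N := 2) h2 1 one_ne_zero
      (by
        have : ((1 : 𝓞 K) : K) = 1 := map_one (algebraMap (𝓞 K) K)
        rw [this]
        exact Pool.Agent.Q182.AR.pos_one)
      (by rw [Ideal.isCoprime_span_singleton_iff]; exact isCoprime_one_left) B
    refine ⟨v, y, h3, ?_, h5, h6, h7⟩
    rw [Nat.cast_one]
    exact one_dvd _
  · have hM2 : 2 ≤ M := by omega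
    obtain ⟨k, hk, hk0⟩ := Pool.Agent.Q264.AR.exists_pos x0 hM
    have hc' : IsCoprime (Ideal.span {x0 + (k : 𝓞 K) * (M : 𝓞 K)}) (Ideal.span {(M : 𝓞 K)}) := by
      rw [Ideal.isCoprime_span_singleton_iff] at hc ⊢
      obtain ⟨a, b, hab⟩ := hc
      exact ⟨a, b - a * k, by rw [← hab]; ring⟩
    obtain ⟨v, y, h3, ⟨t, h4⟩, h5, h6, h7⟩ := main_aux hM2 _ hk0 hk hc' B
    refine ⟨v, y, h3, ⟨t + k, ?_⟩, h5, h6, h7⟩
    linear_combination h4

end Pool.Agent.H955.HC.Dir
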